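import Mathlib
import Pool.Agent.H.MP_54e6ab_lc.A

namespace Pool.Agent.Results.MP_a663df_lc.Rec

open Pool.Agent.H.MP_54e6ab_lc FreeMonoid Nat.Partrec

section
variable {A : Type} [LinearOrder A]

def ac (a b : A) (u : FreeMonoid A) (n : ℕ) : ℕ :=
  u.toList.foldl (fun n x => if x = a then n - 1 else if x = b then n + 1 else n) n

theorem ac_mul (a b : A) (u v n) : ac a b (u * v) n = ac a b v (ac a b u n) := by simp [ac]

theorem inv2 {a b : A} (ab : a < b) (hn : ∀ m, a < m → ¬ m < b) {u v : FreeMonoid A} (h : mk u = mk v) :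
    ac a b u = ac a b v := by
  replace h := mk_eq.1 h
  induction h with
  | of u v h =>
    obtain ⟨x, y, z, ⟨h1, h2, rfl, rfl⟩ | ⟨h1, h2, rfl, rfl⟩⟩ := h <;> funext n <;> simp [ac] <;> have := hn y <;> grind
  | refl => rfl
  | symm _ i => exact i.symm
  | trans _ _ i j => exact i.trans j
  | mul _ _ i j => funext n; rw [ac_mul, ac_mul, i, j]

theorem form (a b : A) (u : FreeMonoid A) : ∃ p q, ∀ n, ac a b u n = n - p + q := by
  induction u using FreeMonoid.inductionOn' with
  | one => exact ⟨0, 0, fun _ => rfl⟩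
  | of_mul x u ih =>
    obtain ⟨p, q, h⟩ := ih
    simp only [ac_mul, h]
    simp only [ac, toList_of, List.foldl_cons, List.foldl_nil]
    split_ifs
    exacts [⟨p + 1, q, by omega⟩, ⟨p - 1, q + (1 - p), by omega⟩, ⟨p, q, by omega⟩]

theorem key {x y : A} (h : x < y) : (∃ Z : Pl A, g x * g y * Z = g y * g x * Z ∧ Z * g x * g y = Z * g y * g x ∧
    g y * Z * Z = Z * g y * Z ∧ Z * Z * g x = Z * g x * Z) ↔ ∃ m, x < m ∧ m < y := by
  refine ⟨fun ⟨Z, h1, h2, h3, h4⟩ => by_contra fun q => ?_, fun ⟨m, a, b⟩ =>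
    ⟨g m, k1 a.le b, k2 a b.le, (k1 le_rfl b).symm, (k2 a le_rfl).symm⟩⟩
  induction Z using PresentedMonoid.inductionOn with | h Z =>
  have i := @inv2 A _ x y h fun m a b => q ⟨m, a, b⟩
  obtain ⟨p, r, f⟩ := form x y Z
  have a1 := congrFun (i (u := of x * of y * Z) (v := of y * of x * Z) h1) 0
  have a2 := congrFun (i (u := Z * of x * of y) (v := Z * of y * of x) h2) 0
  have a3 := congrFun (i (u := of y * Z * Z) (v := Z * of y * Z) h3) 0
  have a4 := congrFun (i (u := Z * Z * of x) (v := Z * of x * Z) h4) 0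
  simp only [ac_mul, f] at a1 a2 a3 a4
  simp [ac, h.ne'] at a1 a2 a3 a4
  omega
end

def wt (n : ℕ) : ℕ := 4 * n.unpair.1 + if n.unpair.2 = 0 then 0 else if n.unpair.2 = 1 then 2 else
  if (Code.evaln n.unpair.2 (Denumerable.ofNat Code n.unpair.1) 0).isSome = true then 1 else 3

theorem wt_prim : Primrec wt := by
  have a : Primrec fun n : ℕ => n.unpair.1 := Primrec.fst.comp Primrec.unpair
  have b : Primrec fun n : ℕ => n.unpair.2 := Primrec.snd.comp Primrec.unpair
  refine Primrec.nat_add.comp (Primrec.nat_mul.comp (.const _) a) (.ite (Primrec.eq.comp b (.const _)) (.const _)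
    (.ite (Primrec.eq.comp b (.const _)) (.const _) (.ite (Primrec.eq.comp (Primrec.option_isSome.comp ?_) (.const _))
      (.const _) (.const _))))
  exact Code.primrec_evaln.comp ((b.pair ((Primrec.ofNat Code).comp a)).pair (.const 0))

theorem result : ∃ o : LinearOrder ℕ, ComputablePred (fun p : ℕ × ℕ => o.lt p.1 p.2) ∧
    ¬ ComputablePred fun E : List (List (ℕ ⊕ ℕ) × List (ℕ ⊕ ℕ)) => ∃ v : ℕ → PresentedMonoid (@K ℕ o), ∀ e ∈ E,
      (e.1.map (Sum.elim (PresentedMonoid.of (@K ℕ o)) v)).prod = (e.2.map (Sum.elim (PresentedMonoid.of (@K ℕ o)) v)).prod := by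
  let o : LinearOrder ℕ := LinearOrder.lift' (fun n => toLex (wt n, n)) fun a b h => congrArg (fun p => (ofLex p).2) h
  have lt : ∀ a b, o.lt a b ↔ wt a < wt b ∨ wt a = wt b ∧ a < b := fun a b => Prod.Lex.toLex_lt_toLex
  refine ⟨o, ?_, fun h => ComputablePred.halting_problem 0 ?_⟩
  · simp only [lt]
    exact PrimrecPred.computablePred ((Primrec.nat_lt.comp (wt_prim.comp .fst) (wt_prim.comp .snd)).or
      ((Primrec.eq.comp (wt_prim.comp .fst) (wt_prim.comp .snd)).and (Primrec.nat_lt.comp .fst .snd)))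
  let S : ℕ ⊕ ℕ → ℕ ⊕ ℕ → List (List (ℕ ⊕ ℕ) × List (ℕ ⊕ ℕ)) := fun x y => [([x, y, .inr 0], [y, x, .inr 0]),
    ([.inr 0, x, y], [.inr 0, y, x]), ([y, .inr 0, .inr 0], [.inr 0, y, .inr 0]), ([.inr 0, .inr 0, x], [.inr 0, x, .inr 0])]
  have c : ∀ i, Primrec fun c : Code => (.inl (Nat.pair (Encodable.encode c) i) : ℕ ⊕ ℕ) := fun i =>
    Primrec.sumInl.comp (Primrec₂.natPair.comp .encode (.const _))
  have p : Primrec fun c : Code => S (.inl (Nat.pair (Encodable.encode c) 0)) (.inl (Nat.pair (Encodable.encode c) 1)) := by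
    repeat' first | apply Primrec.const | apply c | apply Primrec.pair | apply Primrec₂.comp Primrec.list_cons
  obtain ⟨f, hf, e⟩ := ComputablePred.computable_iff.1 h
  refine ComputablePred.computable_iff.2 ⟨_, hf.comp p.to_comp, funext fun d => ?_⟩
  rw [← congrFun e]
  have k := @key ℕ o (Nat.pair (Encodable.encode d) 0) (Nat.pair (Encodable.encode d) 1) (by simp [lt, wt])
  refine propext (Iff.trans ?_ (k.symm.trans ?_))
  · constructor
    · intro h
      obtain ⟨t, ht⟩ := Code.evaln_complete.1 (Part.get_mem h)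
      have := Code.evaln_mono (by omega : t ≤ t + 2) ht
      refine ⟨Nat.pair (Encodable.encode d) (t + 2), ?_, ?_⟩ <;> simp [lt, wt, Option.mem_def.1 this]
    · rintro ⟨m, a, b⟩
      obtain ⟨⟨s, t⟩, rfl⟩ := Nat.pairEquiv.surjective m
      simp [lt, wt] at a b
      have : s = Encodable.encode d := by split_ifs at a b <;> omega
      subst this
      split_ifs at a b with h1 h2 h3 <;> simp_all
      obtain ⟨z, hz⟩ := Option.isSome_iff_exists.1 h3
      exact Part.dom_iff_mem.2 ⟨z, Code.evaln_sound hz⟩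
  · simp only [S, List.forall_mem_cons, List.map, Sum.elim_inl, Sum.elim_inr, List.prod_cons, List.prod_nil, mul_one, ← mul_assoc]
    exact ⟨fun ⟨Z, a, b, c, d⟩ => ⟨fun _ => Z, a, b, c, d, by simp⟩, fun ⟨v, a, b, c, d, _⟩ => ⟨v 0, a, b, c, d⟩⟩

end Pool.Agent.Results.MP_a663df_lc.Rec
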